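import Mathlib
import Pool.Agent.CbfAlt.Final

set_option autoImplicit false

/-!
MP_cbf6a9_al, partial answer. Let `p` be a prime and let `G` be an infinite group in which every
finite subset `F` lies in a finite subgroup `H` having a normal subgroup `M` of order prime to `p`
that contains no nontrivial element of `F` and has `H/M` isomorphic to an alternating group. (With
`M = 1`: every direct limit of finite alternating groups.) Then `G` has a proper subgroup that is
not residually finite.
-/

namespace Pool.Agent.Results.MP_cbf6a9_al.AlternatingType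

theorem result (p : ℕ) (hp : p.Prime) (G : Type*) [Group G] [Infinite G]
    (hcov : ∀ F : Finset G, ∃ H : Subgroup G, Finite H ∧ (∀ g ∈ F, g ∈ H) ∧
      ∃ (M : Subgroup H) (_ : M.Normal), ¬ p ∣ Nat.card M ∧
        (∀ h ∈ M, (h : G) ∈ F → h = 1) ∧
        ∃ n : ℕ, Nonempty (H ⧸ M ≃* alternatingGroup (Fin n))) :
    ∃ K : Subgroup G, K ≠ ⊤ ∧ ∃ k : K, k ≠ 1 ∧
      ∀ N : Subgroup K, N.Normal → N.FiniteIndex → k ∈ N := by
  refine Pool.Agent.CbfAlt.main hp inferInstance ?_
  intro F
  obtain ⟨H, hfin, hmem, M, hM, hpM, hMF, n, ⟨e⟩⟩ := hcov F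
  let φ : H →* Equiv.Perm (Fin n) :=
    (alternatingGroup (Fin n)).subtype.comp (e.toMonoidHom.comp (QuotientGroup.mk' M))
  have hker : φ.ker = M := by
    ext h
    rw [MonoidHom.mem_ker]
    constructor
    · intro h1
      have h2 : e (QuotientGroup.mk' M h) = 1 := Subtype.ext h1
      have h3 : QuotientGroup.mk' M h = 1 := by
        apply e.injective
        rw [h2, map_one]
      rwa [QuotientGroup.mk'_apply, QuotientGroup.eq_one_iff] at h3
    · intro h1
      have h3 : QuotientGroup.mk' M h = 1 := by
        rw [QuotientGroup.mk'_apply, QuotientGroup.eq_one_iff]; exact h1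
      change ((e (QuotientGroup.mk' M h) : alternatingGroup (Fin n)) : Equiv.Perm (Fin n)) = 1
      rw [h3, map_one]
      rfl
  refine ⟨H, n, φ, hfin, hmem, ?_, ?_, ?_⟩
  · ext g
    constructor
    · rintro ⟨h, rfl⟩
      exact (e (QuotientGroup.mk' M h)).2
    · intro hg
      obtain ⟨q, hq⟩ := e.surjective ⟨g, hg⟩
      obtain ⟨h, rfl⟩ := QuotientGroup.mk'_surjective M q
      exact ⟨h, congrArg Subtype.val hq⟩
  · rw [hker]; exact hpM
  · intro h hF h1
    refine hMF h ?_ hF
    rw [← hker]
    exact h1

end Pool.Agent.Results.MP_cbf6a9_al.AlternatingType
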