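import Mathlib
import Pool.Agent.LFS.LinWildMain
import Pool.Agent.LFS.WildMain

set_option autoImplicit false

/-!
MP_cbf6a9_al, partial answer. Let `G` be an infinite simple group such that for every finite subset
`F` and every `s` there is a finite subgroup `H` containing `F` with a normal subgroup `M` that
contains no nontrivial element of `F`, such that

* either `H/M` is isomorphic to an alternating group `Alt(n)` (there is no condition on `M`), and
  all nonabelian simple sections of finite subgroups of `G` have a solvable outer automorphism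
  group,
* or `H/M` is isomorphic to `PSL_n(K)` with `n ≥ s` and `K` a finite field, and for all perfect
  normal subgroups `T` of `H` inside `M` every normal subgroup `L` of `T` with `T/L` simple of order
  at most `s` is normal in `H` or has more than `|K|^(n s)` conjugates in `H`.

Then `G` has a proper subgroup that is not residually finite.
-/

namespace Pool.Agent.Results.MP_cbf6a9_al.ArbitraryKernels

open Pool.Agent.LFS

theorem result (G : Type*) [Group G] [Infinite G] [IsSimpleGroup G]
    (hcov : ∀ (F : Finset G) (s : ℕ), ∃ H : Subgroup G, Finite H ∧ (∀ g ∈ F, g ∈ H) ∧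
      ∃ (M : Subgroup H) (_ : M.Normal), (∀ h ∈ M, (h : G) ∈ F → h = 1) ∧ ∃ n : ℕ,
        ((Nonempty (H ⧸ M ≃* alternatingGroup (Fin n)) ∧
          ∀ (A : Subgroup G) (N : Subgroup A) [N.Normal], Finite A → IsSimpleGroup (A ⧸ N) →
            (∃ a b : A ⧸ N, a * b ≠ b * a) →
              ∃ k, derivedSeries (MulAut (A ⧸ N)) k ≤
                (MulAut.conj : A ⧸ N →* MulAut (A ⧸ N)).range) ∨
        (s ≤ n ∧ ∃ (K : Type) (_ : Field K), Finite K ∧
          Nonempty (H ⧸ M ≃* Matrix.ProjectiveSpecialLinearGroup (Fin n) K) ∧
          ∀ (T L : Subgroup H) [T.Normal] [(L.subgroupOf T).Normal], T ≤ M → L ≤ T →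
            ⁅T, T⁆ = T → IsSimpleGroup (T ⧸ L.subgroupOf T) →
            Nat.card (T ⧸ L.subgroupOf T) ≤ s →
              L.Normal ∨
                Nat.card K ^ (n * s) < (Subgroup.normalizer (L : Set H)).index))) :
    ∃ K : Subgroup G, K ≠ ⊤ ∧ ∃ k : K, k ≠ 1 ∧
      ∀ N : Subgroup K, N.Normal → N.FiniteIndex → k ∈ N := by
  classical
  have hcov' : ∀ (F : Finset G) (s : ℕ), (SchG G ∧ Nonempty (WCov F)) ∨ Nonempty (CovL2 F s) := by
    intro F s
    obtain ⟨H, hfin, hmem, M, hM, hMF, n, h | h⟩ := hcov F s
    · left
      obtain ⟨⟨e⟩, hsch⟩ := h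
      refine ⟨hsch, ?_⟩
      let φ : H →* Equiv.Perm (Fin n) :=
        (alternatingGroup (Fin n)).subtype.comp (e.toMonoidHom.comp (QuotientGroup.mk' M))
      have hker : φ.ker = M := by
        ext h
        rw [MonoidHom.mem_ker]
        constructor
        · intro h1
          have h2 : e (QuotientGroup.mk' M h) = 1 := Subtype.ext h1
          have h3 : QuotientGroup.mk' M h = 1 := by
            apply e.injective
            rw [h2, map_one]
          rwa [QuotientGroup.mk'_apply, QuotientGroup.eq_one_iff] at h3
        · intro h1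
          have h3 : QuotientGroup.mk' M h = 1 := by
            rw [QuotientGroup.mk'_apply, QuotientGroup.eq_one_iff]; exact h1
          change ((e (QuotientGroup.mk' M h) : alternatingGroup (Fin n)) :
            Equiv.Perm (Fin n)) = 1
          rw [h3, map_one]
          rfl
      have hrange : φ.range = alternatingGroup (Fin n) := by
        ext g
        constructor
        · rintro ⟨h, rfl⟩
          exact (e (QuotientGroup.mk' M h)).2
        · intro hg
          obtain ⟨q, hq⟩ := e.surjective ⟨g, hg⟩
          obtain ⟨h, rfl⟩ := QuotientGroup.mk'_surjective M q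
          exact ⟨h, congrArg Subtype.val hq⟩
      refine ⟨⟨H, hfin, hmem, n, φ, hrange, ?_⟩⟩
      intro h h1 hF
      refine hMF h ?_ hF
      rw [← hker]
      exact h1
    · right
      obtain ⟨hn, K, hK, hKfin, ⟨e⟩, hfew⟩ := h
      let j : Matrix.ProjectiveSpecialLinearGroup (Fin n) K →*
          Matrix.ProjGenLinGroup (Fin n) K := Matrix.ProjectiveSpecialLinearGroup.toPGL
      have hj : Function.Injective j := Matrix.ProjectiveSpecialLinearGroup.toPGL_injective
      let φ : H →* Matrix.ProjGenLinGroup (Fin n) K :=
        j.comp (e.toMonoidHom.comp (QuotientGroup.mk' M))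
      have hφ : ∀ h, φ h = j (e (QuotientGroup.mk' M h)) := fun h => rfl
      have hker : φ.ker = M := by
        ext h
        rw [MonoidHom.mem_ker, hφ]
        constructor
        · intro h1
          have h2 : e (QuotientGroup.mk' M h) = 1 := by
            apply hj
            rw [h1, map_one]
          have h3 : QuotientGroup.mk' M h = 1 := by
            apply e.injective
            rw [h2, map_one]
          rwa [QuotientGroup.mk'_apply, QuotientGroup.eq_one_iff] at h3
        · intro h1
          have h3 : QuotientGroup.mk' M h = 1 := by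
            rw [QuotientGroup.mk'_apply, QuotientGroup.eq_one_iff]; exact h1
          rw [h3, map_one, map_one]
      have hrange : φ.range =
          (Matrix.SpecialLinearGroup.toPGL (n := Fin n) (R := K)).range := by
        ext g
        constructor
        · rintro ⟨h, rfl⟩
          rw [hφ]
          obtain ⟨S, hS⟩ := QuotientGroup.mk_surjective (e (QuotientGroup.mk' M h))
          refine ⟨S, ?_⟩
          rw [← hS]
          rfl
        · rintro ⟨S, rfl⟩
          obtain ⟨q, hq⟩ := e.surjective (QuotientGroup.mk S)
          obtain ⟨h, rfl⟩ := QuotientGroup.mk'_surjective M q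
          refine ⟨h, ?_⟩
          rw [hφ, hq]
          rfl
      refine ⟨⟨H, hfin, hmem, n, hn, K, hK, hKfin, φ, hrange, ?_, ?_⟩⟩
      · intro h h1 hF
        refine hMF h ?_ hF
        rw [← hker]
        exact h1
      · intro T L _ _ hT
        rw [hker] at hT
        exact hfew T L hT
  by_cases hA : ∀ F : Finset G, SchG G ∧ Nonempty (WCov F)
  · exact mainW (hA ∅).1 fun F => (hA F).2
  · by_cases hL : ∀ (F : Finset G) (s : ℕ), Nonempty (CovL2 F s)
    · exact mainL2 hL
    · exfalso
      push Not at hA hL
      obtain ⟨F1, h1⟩ := hA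
      obtain ⟨F2, s2, h2⟩ := hL
      rcases hcov' (F1 ∪ F2) s2 with ⟨h, ⟨C⟩⟩ | ⟨⟨C⟩⟩
      · exact (h1 h).false (C.mono (by intro x hx; simp [hx]))
      · exact h2.false (C.mono (by intro x hx; simp [hx]) le_rfl)

end Pool.Agent.Results.MP_cbf6a9_al.ArbitraryKernels
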