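import Mathlib
import Pool.Agent.LFS.LinMain

set_option autoImplicit false

/-!
MP_cbf6a9_al, partial answer. Let `P` be a set of natural numbers with `n₀!/2 ∉ P` for some
`n₀ ≥ 5`, and let `G` be an infinite simple group such that for every finite subset `F` and every
`s` there is a finite subgroup `H` containing `F` with a normal subgroup `M` that contains no
nontrivial element of `F`, such that

* either `H/M` is isomorphic to an alternating group `Alt(n)`, and every normal subgroup `L` of `M`
  for which `M/L` has order at most `s` and has a nonabelian simple section of order not in `P` has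
  more than `n^s` conjugates in `H`,
* or `H/M` is isomorphic to `PSL_n(K)` with `n ≥ s` and `K` a finite field, and every such `L` has
  more than `|K|^(n s)` conjugates in `H`.

Then `G` has a proper subgroup that is not residually finite.
-/

namespace Pool.Agent.Results.MP_cbf6a9_al.TameCovers

open Pool.Agent.LFS

theorem result (P : Set ℕ) (n₀ : ℕ) (h5 : 5 ≤ n₀) (hP : n₀.factorial / 2 ∉ P)
    (G : Type*) [Group G] [Infinite G] [IsSimpleGroup G]
    (hcov : ∀ (F : Finset G) (s : ℕ), ∃ H : Subgroup G, Finite H ∧ (∀ g ∈ F, g ∈ H) ∧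
      ∃ (M : Subgroup H) (_ : M.Normal), (∀ h ∈ M, (h : G) ∈ F → h = 1) ∧ ∃ n : ℕ,
        ((Nonempty (H ⧸ M ≃* alternatingGroup (Fin n)) ∧
          ∀ (L : Subgroup M) [L.Normal], Nat.card (M ⧸ L) ≤ s → ¬ SecIn P (M ⧸ L) →
            n ^ s < (Subgroup.normalizer ((L.map M.subtype : Subgroup H) : Set H)).index) ∨
        (s ≤ n ∧ ∃ (K : Type) (_ : Field K), Finite K ∧
          Nonempty (H ⧸ M ≃* Matrix.ProjectiveSpecialLinearGroup (Fin n) K) ∧
          ∀ (L : Subgroup M) [L.Normal], Nat.card (M ⧸ L) ≤ s → ¬ SecIn P (M ⧸ L) →
            Nat.card K ^ (n * s) <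
              (Subgroup.normalizer ((L.map M.subtype : Subgroup H) : Set H)).index))) :
    ∃ K : Subgroup G, K ≠ ⊤ ∧ ∃ k : K, k ≠ 1 ∧
      ∀ N : Subgroup K, N.Normal → N.FiniteIndex → k ∈ N := by
  classical
  have hcov' : ∀ (F : Finset G) (s : ℕ), Nonempty (Cov P F s) ∨ Nonempty (CovL P F s) := by
    intro F s
    obtain ⟨H, hfin, hmem, M, hM, hMF, n, h | h⟩ := hcov F s
    · left
      obtain ⟨⟨e⟩, hfew⟩ := h
      let φ : H →* Equiv.Perm (Fin n) :=
        (alternatingGroup (Fin n)).subtype.comp (e.toMonoidHom.comp (QuotientGroup.mk' M))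
      have hker : φ.ker = M := by
        ext h
        rw [MonoidHom.mem_ker]
        constructor
        · intro h1
          have h2 : e (QuotientGroup.mk' M h) = 1 := Subtype.ext h1
          have h3 : QuotientGroup.mk' M h = 1 := by
            apply e.injective
            rw [h2, map_one]
          rwa [QuotientGroup.mk'_apply, QuotientGroup.eq_one_iff] at h3
        · intro h1
          have h3 : QuotientGroup.mk' M h = 1 := by
            rw [QuotientGroup.mk'_apply, QuotientGroup.eq_one_iff]; exact h1
          change ((e (QuotientGroup.mk' M h) : alternatingGroup (Fin n)) :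
            Equiv.Perm (Fin n)) = 1
          rw [h3, map_one]
          rfl
      have hrange : φ.range = alternatingGroup (Fin n) := by
        ext g
        constructor
        · rintro ⟨h, rfl⟩
          exact (e (QuotientGroup.mk' M h)).2
        · intro hg
          obtain ⟨q, hq⟩ := e.surjective ⟨g, hg⟩
          obtain ⟨h, rfl⟩ := QuotientGroup.mk'_surjective M q
          exact ⟨h, congrArg Subtype.val hq⟩
      refine ⟨⟨H, hfin, hmem, n, φ, hrange, ?_, ?_⟩⟩
      · intro h h1 hF
        refine hMF h ?_ hF
        rw [← hker]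
        exact h1
      · rw [hker]
        exact hfew
    · right
      obtain ⟨hn, K, hK, hKfin, ⟨e⟩, hfew⟩ := h
      let j : Matrix.ProjectiveSpecialLinearGroup (Fin n) K →*
          Matrix.ProjGenLinGroup (Fin n) K := Matrix.ProjectiveSpecialLinearGroup.toPGL
      have hj : Function.Injective j := Matrix.ProjectiveSpecialLinearGroup.toPGL_injective
      let φ : H →* Matrix.ProjGenLinGroup (Fin n) K :=
        j.comp (e.toMonoidHom.comp (QuotientGroup.mk' M))
      have hφ : ∀ h, φ h = j (e (QuotientGroup.mk' M h)) := fun h => rfl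
      have hker : φ.ker = M := by
        ext h
        rw [MonoidHom.mem_ker, hφ]
        constructor
        · intro h1
          have h2 : e (QuotientGroup.mk' M h) = 1 := by
            apply hj
            rw [h1, map_one]
          have h3 : QuotientGroup.mk' M h = 1 := by
            apply e.injective
            rw [h2, map_one]
          rwa [QuotientGroup.mk'_apply, QuotientGroup.eq_one_iff] at h3
        · intro h1
          have h3 : QuotientGroup.mk' M h = 1 := by
            rw [QuotientGroup.mk'_apply, QuotientGroup.eq_one_iff]; exact h1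
          rw [h3, map_one, map_one]
      have hrange : φ.range =
          (Matrix.SpecialLinearGroup.toPGL (n := Fin n) (R := K)).range := by
        ext g
        constructor
        · rintro ⟨h, rfl⟩
          rw [hφ]
          obtain ⟨S, hS⟩ := QuotientGroup.mk_surjective (e (QuotientGroup.mk' M h))
          refine ⟨S, ?_⟩
          rw [← hS]
          rfl
        · rintro ⟨S, rfl⟩
          obtain ⟨q, hq⟩ := e.surjective (QuotientGroup.mk S)
          obtain ⟨h, rfl⟩ := QuotientGroup.mk'_surjective M q
          refine ⟨h, ?_⟩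
          rw [hφ, hq]
          rfl
      refine ⟨⟨H, hfin, hmem, n, hn, K, hK, hKfin, φ, hrange, ?_, ?_⟩⟩
      · intro h h1 hF
        refine hMF h ?_ hF
        rw [← hker]
        exact h1
      · rw [hker]
        exact hfew
  by_cases hA : ∀ (F : Finset G) (s : ℕ), Nonempty (Cov P F s)
  · exact Pool.Agent.LFS.main (P := P) h5 hP hA
  · by_cases hL : ∀ (F : Finset G) (s : ℕ), Nonempty (CovL P F s)
    · exact Pool.Agent.LFS.mainL (P := P) h5 hP hL
    · exfalso
      push Not at hA hL
      obtain ⟨F1, s1, h1⟩ := hA
      obtain ⟨F2, s2, h2⟩ := hL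
      obtain ⟨FL, hFL⟩ := exists_large (G := G) P 1
      rcases hcov' (F1 ∪ F2 ∪ FL) (max s1 s2) with h | h
      · obtain ⟨C⟩ := h
        have hfinH : Finite C.H := C.fin
        have h0 : 1 ≤ C.n := hFL 0 ⟨C.H, C.fin, fun g hg => C.mem g (by simp [hg]), C.n, C.ψ,
          C.range, fun h h3 h4 => C.ker h h3 (by simp [h4]), fun L _ hL _ => by
            have h5 : 0 < Nat.card (C.ψ.ker ⧸ L) := Nat.card_pos
            omega⟩
        exact h1.false (C.mono h0 (by intro x hx; simp [hx]) (le_max_left _ _))
      · obtain ⟨C⟩ := h
        exact h2.false (C.mono (by intro x hx; simp [hx]) (le_max_right _ _))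

end Pool.Agent.Results.MP_cbf6a9_al.TameCovers
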